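import Pool.Agent.H29.HopfOrd.HopfD

set_option autoImplicit false

/-
MP_eed25b_nt, Q1, is answered in the negative.

Let `K = 𝔽₂(t)`, `L = 𝔽₄(s)` with `s³ = t`, so that `L/K` is Galois with group
`G = ⟨σ, φ⟩ ≅ S₃`, `σ(s) = ω s`, `φ` the Frobenius of `𝔽₄`; it is tamely ramified at `t = 0`. Take
`𝔅 = 𝔒_L = 𝔽₄[s]`, the integral closure of `𝔽₂[t]` in `L`. Then `𝔄_{K[G]} = 𝔽₂[t][G]` is a Hopf
order, while `𝔄_λ` is not: with `η_j = σ^j φ σ^{-j}` the element `h₀ = ∑_j ω^{-j} s⁻¹ λ(η_j)` lies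
in `𝔄_λ` (it maps `𝔽₄[s]` to itself), and the linear functional `ψ(x) = ∑_j ω^{-j} s⁻¹ x(η_j)` maps
`𝔄_λ` into `𝔽₂[t]`, so that `ψ ⊗ ψ` maps `𝔄_λ ⊗ 𝔄_λ` into `𝔽₂[t]`; but
`(ψ ⊗ ψ)(Δ h₀) = 3 s⁻³ = t⁻¹`.
-/

namespace Pool.Agent.Results.MP_eed25b_nt.HopfOrderCounterexample

open Polynomial Pool.Agent.H29.HopfOrd

/-- There is a finite nonabelian Galois extension `L` of `K = 𝔽₂(t)` such that, for `𝔅 = 𝔒_L` (the
integral closure of `𝔽₂[t]` in `L`), the associated order `𝔄_{K[G]}` is a Hopf order in `K[G]`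
but the associated order `𝔄_λ` is not a Hopf order in `H_λ`. -/
theorem result :
    ∃ (L : Type) (_ : Field L) (_ : Algebra (ZMod 2)[X] L)
      (_ : Algebra (FractionRing (ZMod 2)[X]) L)
      (_ : IsScalarTower (ZMod 2)[X] (FractionRing (ZMod 2)[X]) L),
      FiniteDimensional (FractionRing (ZMod 2)[X]) L ∧
      IsGalois (FractionRing (ZMod 2)[X]) L ∧
      (∃ σ τ : L ≃ₐ[FractionRing (ZMod 2)[X]] L, σ * τ ≠ τ * σ) ∧
      IsHopfOrder (ZMod 2)[X] (FractionRing (ZMod 2)[X]) Set.univ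
        (assocClassical (FractionRing (ZMod 2)[X]) L (integralClosure (ZMod 2)[X] L : Set L)) ∧
      ¬ IsHopfOrder (ZMod 2)[X] (FractionRing (ZMod 2)[X])
        (HLambda (FractionRing (ZMod 2)[X]) L)
        (assocLambda (FractionRing (ZMod 2)[X]) L (integralClosure (ZMod 2)[X] L : Set L)) :=
  ⟨L₀, inferInstance, inferInstance, inferInstance, inferInstance, inferInstance, inferInstance,
    ⟨sg, ph, nonabelian⟩, classical_isHopfOrder, lambda_not_isHopfOrder⟩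

end Pool.Agent.Results.MP_eed25b_nt.HopfOrderCounterexample
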